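import Pool.Agent.H61PP.Conv2

/-!
# Tight substantial maps into dimension at most `d + 1` have convex image

Positive part of Q2: for every manifold like a projective plane of dimension `2d` and every tight
substantial map into `ℝ^N` with `N ≤ d + 1` the image is convex. The bound is sharp (see
`NonconvexImages`: it fails for `N = d + 2`).

Idea: if `y` is a point of the hull which is not in the image, let `r : P → S^{N-1}` be the radial
map of `f - y`. The top sets of `f` are acyclic or carry the class of degree `d`, so a Vietoris-Begle
type argument for the incidence space `{(x, z) : x maximises ⟨z, f⟩}` shows that `r` is not trivial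
in cohomology. For `N ≤ d` this is absurd. For `N = d + 1` the pull back of the class of the sphere is
the class of degree `d`, which therefore vanishes on all preimages of half-spaces with `y` on the
boundary; by tightness these preimages are acyclic, so `P` has the cohomology of `S^d`, which is
absurd because the top cohomology of the closed manifold `P` is not trivial.
-/

namespace Pool.Agent.Results.MP_bb5b69_gt.ConvexUpToDPlusOne

open Pool.Agent.Helper775.Tight

/-- Let `P` be a closed topological `2d`-manifold (`d ≥ 1`) containing a sphere `S^d` whose complement
is homeomorphic to `ℝ^{2d}`, and let `f : P → ℝ^N` be a continuous substantial map which is tight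
(for singular homology mod 2, or for Čech theory mod 2). If `N ≤ d + 1`, then `f(P)` is convex. -/
theorem result {P : Type*} [TopologicalSpace P] {d N : ℕ} (hd : 1 ≤ d) (hN : N ≤ d + 1)
    [ChartedSpace (EuclideanSpace ℝ (Fin (2 * d))) P] (hP : IsLikeProjectivePlane d P)
    (f : P → EuclideanSpace ℝ (Fin N)) (hf : Continuous f) (hs : Substantial f)
    (ht : TightMap f ∨ CechTightMap f) : Convex ℝ (Set.range f) :=
  Pool.Agent.H61PP.conv_sharp hd hN hP f hf hs ht

end Pool.Agent.Results.MP_bb5b69_gt.ConvexUpToDPlusOne
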