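import Pool.Agent.H61PP.Exam2

/-!
# Tight substantial maps of projective planes with nonconvex image

Negative answer to Q2: both clauses of Q2 fail for the standard complex projective plane (`N = 5` and
`N = 4`), and the first clause also fails for the real projective plane (`N = 3`).

With `|x| = 1` the maps are
* `N = 3`, real plane: `[x] ↦ (|x₀|² + |x₁|², |x₀|² - |x₁|², 2 x₀ x₁)`;
* `N = 4`, complex plane: `[x] ↦ (|x₀|² + |x₁|², |x₀|² - |x₁|², 2 Re (x̄₀ x₁), 2 Im (x̄₀ x₁))`;
* `N = 5`, complex plane: the previous one together with `2 Re (x̄₀ x₂)`.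
Every linear functional of these maps is a Hermitian form on the unit sphere, so every half-space
preimage deforms to a projective subspace.
-/

namespace Pool.Agent.Results.MP_bb5b69_gt.NonconvexImages

open Pool.Agent.Helper775.Tight Pool.Agent.H61PP

/-- Real projective plane (`d = 1`, `N = 3 = 2d+1`) and complex projective plane (`d = 2`,
`N = 4 = 2d` and `N = 5 = 2d+1`): they are manifolds like a projective plane, and they have tight
substantial maps to `ℝ^N` whose images are neither convex nor convex hypersurfaces. -/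
theorem result :
    ((∃ _ : ChartedSpace (EuclideanSpace ℝ (Fin (2 * 1))) (ProjSpace ℝ 2),
        IsLikeProjectivePlane 1 (ProjSpace ℝ 2)) ∧
      ∃ f : ProjSpace ℝ 2 → EuclideanSpace ℝ (Fin 3), Continuous f ∧ Substantial f ∧
        TightMap f ∧ CechTightMap f ∧ ¬ Convex ℝ (Set.range f) ∧
        ¬ IsConvexHypersurface (Set.range f)) ∧
    ((∃ _ : ChartedSpace (EuclideanSpace ℝ (Fin (2 * 2))) (ProjSpace ℂ 2),
        IsLikeProjectivePlane 2 (ProjSpace ℂ 2)) ∧
      (∃ f : ProjSpace ℂ 2 → EuclideanSpace ℝ (Fin 4), Continuous f ∧ Substantial f ∧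
        TightMap f ∧ CechTightMap f ∧ ¬ Convex ℝ (Set.range f) ∧
        ¬ IsConvexHypersurface (Set.range f)) ∧
      ∃ f : ProjSpace ℂ 2 → EuclideanSpace ℝ (Fin 5), Continuous f ∧ Substantial f ∧
        TightMap f ∧ CechTightMap f ∧ ¬ Convex ℝ (Set.range f) ∧
        ¬ IsConvexHypersurface (Set.range f)) :=
  ⟨⟨pp_like (𝕜 := ℝ) (Module.finrank_self ℝ), exam_real⟩,
    pp_like (𝕜 := ℂ) Complex.finrank_real_complex, exam_four, exam_five⟩

end Pool.Agent.Results.MP_bb5b69_gt.NonconvexImages
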